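import Pool.Agent.N440.LB.Stm

set_option autoImplicit false

/-! Leaf LB/CH of project LB (helper664): the chord function of an invariant function. -/

namespace Pool.Agent.N664.LB.CH

open Complex Set MeasureTheory Filter Topology Pool.Agent.W780.PG Pool.Agent.W780.BB
  Pool.Agent.TH103.BL Pool.Agent.N440.LB

open scoped Real ComplexConjugate

/-- the point with the coordinate `s` of the line with direction `θ` and offset `u` -/
noncomputable def ln (θ u s : ℝ) : ℂ := ((s : ℂ) + u * I) * dir θ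

lemma dir_conj (θ : ℝ) : conj (dir θ) * dir θ = 1 := by
  unfold dir
  rw [← Complex.exp_conj, ← Complex.exp_add]
  simp

lemma norm_dir (θ : ℝ) : ‖dir θ‖ = 1 := Complex.norm_exp_ofReal_mul_I θ

lemma dir_per (θ : ℝ) : dir (θ + 2 * π) = dir θ := by
  unfold dir
  push_cast
  rw [add_mul, Complex.exp_add, Complex.exp_two_pi_mul_I, mul_one]

lemma dir_neg (θ : ℝ) : dir (θ + π) = - dir θ := by
  unfold dir
  push_cast
  rw [add_mul, Complex.exp_add, Complex.exp_pi_mul_I]
  ring

lemma off_add (θ s : ℝ) (z : ℂ) : off θ (z + s • dir θ) = off θ z := by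
  unfold off
  have h : conj (dir θ) * (z + s • dir θ) = conj (dir θ) * z + s := by
    rw [mul_add, Complex.real_smul, mul_left_comm, dir_conj, mul_one]
  rw [h]
  simp

lemma off_sub (θ s : ℝ) (z : ℂ) : off θ (z - s • dir θ) = off θ z := by
  have := off_add θ (-s) z
  rwa [neg_smul, ← sub_eq_add_neg] at this

lemma eq_ln (θ : ℝ) (z : ℂ) : z = ln θ (off θ z) (conj (dir θ) * z).re := by
  unfold ln off
  rw [Complex.re_add_im, mul_comm, ← mul_assoc, mul_comm (dir θ), dir_conj, one_mul]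

lemma ln_sub (θ u s s' : ℝ) : ln θ u s' = ln θ u s + (s' - s) • dir θ := by
  unfold ln
  rw [Complex.real_smul]
  push_cast
  ring

lemma cont_ln : Continuous fun y : (ℝ × ℝ) × ℝ => ln y.1.1 y.1.2 y.2 := by
  unfold ln dir
  fun_prop

lemma cont_ln' (θ u : ℝ) : Continuous fun s : ℝ => ln θ u s := by
  unfold ln
  fun_prop

lemma abs_le_norm_ln (θ u s : ℝ) : |s| ≤ ‖ln θ u s‖ := by
  unfold ln
  rw [norm_mul, norm_dir, mul_one]
  have h := Complex.abs_re_le_norm ((s : ℂ) + u * I)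
  simpa using h

lemma lft_add (a b x : ℂ) (s φ : ℝ) :
    lft a b (x + s • dir φ) = lft a b x + s * (‖b - a‖ * Real.sin (φ - arg (b - a))) := by
  have h := Complex.norm_mul_exp_arg_mul_I (b - a)
  have h1 : conj (b - a) * dir φ =
      ‖b - a‖ * Complex.exp (((φ - arg (b - a) : ℝ) : ℂ) * I) := by
    have h2 : conj (b - a) = ‖b - a‖ * Complex.exp (-((arg (b - a) : ℂ) * I)) := by
      conv_lhs => rw [← h]
      rw [map_mul, Complex.conj_ofReal, ← Complex.exp_conj, map_mul, Complex.conj_ofReal,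
        Complex.conj_I, mul_neg]
    rw [h2, mul_assoc, dir, ← Complex.exp_add]
    congr 2
    push_cast
    ring
  unfold lft
  have h3 : conj (b - a) * (x + s • dir φ - a) =
      conj (b - a) * (x - a) + (s : ℂ) * (conj (b - a) * dir φ) := by
    rw [Complex.real_smul]
    ring
  rw [h3, h1, Complex.add_im, Complex.im_ofReal_mul, Complex.im_ofReal_mul,
    Complex.exp_ofReal_mul_I_im]

/-- numerator -/
noncomputable def Nn {n : ℕ} (p : Fin (n + 3) → ℂ) (f : ℂ × ℝ → ℝ) (θ u : ℝ) : ℝ :=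
  ∫ s : ℝ, (reg p).indicator (fun z => f (z, θ)) (ln θ u s)

/-- denominator -/
noncomputable def Dd {n : ℕ} (p : Fin (n + 3) → ℂ) (θ u : ℝ) : ℝ :=
  ∫ s : ℝ, (reg p).indicator (fun _ => (1 : ℝ)) (ln θ u s)

lemma meas_int (h : ℂ × ℝ → ℝ) (hh : Measurable h) :
    Measurable (fun x : ℝ × ℝ => ∫ s : ℝ, h (ln x.1 x.2 s, x.1)) := by
  have h1 : Continuous fun y : (ℝ × ℝ) × ℝ => (ln y.1.1 y.1.2 y.2, y.1.1) :=
    cont_ln.prodMk (by fun_prop)
  have h2 : StronglyMeasurable (fun y : (ℝ × ℝ) × ℝ => h (ln y.1.1 y.1.2 y.2, y.1.1)) :=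
    (hh.comp h1.measurable).stronglyMeasurable
  exact (h2.integral_prod_right').measurable

lemma ind_eq {n : ℕ} (p : Fin (n + 3) → ℂ) (f : ℂ × ℝ → ℝ) (θ : ℝ) (w : ℂ) :
    (reg p).indicator (fun z => f (z, θ)) w = ((reg p) ×ˢ (univ : Set ℝ)).indicator f (w, θ) := by
  by_cases h : w ∈ reg p <;> simp [h]

lemma meas_Nn {n : ℕ} (p : Fin (n + 3) → ℂ) (hop : IsOpen (reg p)) (f : ℂ × ℝ → ℝ)
    (hf : Measurable f) : Measurable (fun x : ℝ × ℝ => Nn p f x.1 x.2) := by
  have h := meas_int (((reg p) ×ˢ (univ : Set ℝ)).indicator f)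
    (hf.indicator (hop.measurableSet.prod MeasurableSet.univ))
  have e : (fun x : ℝ × ℝ => Nn p f x.1 x.2) = fun x : ℝ × ℝ =>
      ∫ s : ℝ, ((reg p) ×ˢ (univ : Set ℝ)).indicator f (ln x.1 x.2 s, x.1) := by
    funext x
    unfold Nn
    refine integral_congr_ae (Eventually.of_forall fun s => ?_)
    exact ind_eq p f x.1 _
  rw [e]
  exact h

lemma Dd_eq {n : ℕ} (p : Fin (n + 3) → ℂ) (θ u : ℝ) : Dd p θ u = Nn p (fun _ => 1) θ u := rfl

/-- the chord -/
def A {n : ℕ} (p : Fin (n + 3) → ℂ) (θ u : ℝ) : Set ℝ := {s | ln θ u s ∈ reg p}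

lemma ind_A {n : ℕ} (p : Fin (n + 3) → ℂ) (θ u c : ℝ) :
    (fun s => (reg p).indicator (fun _ => c) (ln θ u s)) = (A p θ u).indicator fun _ => c := by
  funext s
  by_cases h : ln θ u s ∈ reg p
  · rw [indicator_of_mem h, indicator_of_mem (show s ∈ A p θ u from h)]
  · rw [indicator_of_notMem h, indicator_of_notMem (show s ∉ A p θ u from h)]

lemma A_open {n : ℕ} (p : Fin (n + 3) → ℂ) (hop : IsOpen (reg p)) (θ u : ℝ) :
    IsOpen (A p θ u) := hop.preimage (cont_ln' θ u)

lemma A_fin {n : ℕ} (p : Fin (n + 3) → ℂ) (R : ℝ) (hR : ∀ z ∈ reg p, ‖z‖ ≤ R) (θ u : ℝ) :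
    volume (A p θ u) < ⊤ := by
  have h : A p θ u ⊆ Icc (-R) R := fun s hs =>
    abs_le.1 ((abs_le_norm_ln θ u s).trans (hR _ hs))
  exact (measure_mono h).trans_lt measure_Icc_lt_top

lemma Dd_eq' {n : ℕ} (p : Fin (n + 3) → ℂ) (hop : IsOpen (reg p)) (θ u : ℝ) :
    Dd p θ u = (volume (A p θ u)).toReal := by
  unfold Dd
  rw [ind_A, integral_indicator_const _ (A_open p hop θ u).measurableSet, smul_eq_mul, mul_one]
  rfl

lemma int_ind {n : ℕ} (p : Fin (n + 3) → ℂ) (hop : IsOpen (reg p)) (R : ℝ)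
    (hR : ∀ z ∈ reg p, ‖z‖ ≤ R) (θ u c : ℝ) :
    Integrable (fun s => (reg p).indicator (fun _ => c) (ln θ u s)) := by
  rw [ind_A, integrable_indicator_iff (A_open p hop θ u).measurableSet]
  exact integrableOn_const (A_fin p R hR θ u).ne

lemma Nn_const {n : ℕ} (p : Fin (n + 3) → ℂ) (f : ℂ × ℝ → ℝ) (θ u c : ℝ)
    (h : ∀ s, ln θ u s ∈ reg p → f (ln θ u s, θ) = c) : Nn p f θ u = c * Dd p θ u := by
  unfold Nn Dd
  rw [← integral_const_mul]
  refine integral_congr_ae (Eventually.of_forall fun s => ?_)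
  by_cases hs : ln θ u s ∈ reg p
  · simp only [indicator_of_mem hs, h s hs, mul_one]
  · simp only [indicator_of_notMem hs, mul_zero]

lemma Nn_le {n : ℕ} (p : Fin (n + 3) → ℂ) (hop : IsOpen (reg p)) (R : ℝ)
    (hR : ∀ z ∈ reg p, ‖z‖ ≤ R) (f : ℂ × ℝ → ℝ) (C : ℝ) (hf : ∀ x, |f x| ≤ C) (θ u : ℝ) :
    |Nn p f θ u| ≤ C * Dd p θ u := by
  have h := norm_integral_le_of_norm_le
    (f := fun s => (reg p).indicator (fun z => f (z, θ)) (ln θ u s))
    (int_ind p hop R hR θ u C) (Eventually.of_forall fun s => by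
      by_cases hs : ln θ u s ∈ reg p
      · simp only [indicator_of_mem hs]
        exact hf _
      · simp only [indicator_of_notMem hs]
        simp)
  have e : ∫ s, (reg p).indicator (fun _ => C) (ln θ u s) = C * Dd p θ u := by
    unfold Dd
    rw [← integral_const_mul]
    refine integral_congr_ae (Eventually.of_forall fun s => ?_)
    by_cases hs : ln θ u s ∈ reg p
    · simp only [indicator_of_mem hs, mul_one]
    · simp only [indicator_of_notMem hs, mul_zero]
  rw [e] at h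
  exact h

lemma small {n : ℕ} (p : Fin (n + 3) → ℂ) (i : Fin (n + 3)) (hne : p (i + 1) ≠ p i) (x : ℂ)
    (h0 : lft (p i) (p (i + 1)) x = 0)
    (hk : ∀ k, k ≠ i → 0 < lft (p k) (p (k + 1)) x) (φ : ℝ) (hφ : 0 < Real.sin (φ - tau p i)) :
    ∃ s : ℝ, 0 < s ∧ x + s • dir φ ∈ reg p := by
  have hev : ∀ᶠ s in 𝓝[>] (0 : ℝ), ∀ k, 0 < lft (p k) (p (k + 1)) (x + s • dir φ) := by
    rw [eventually_all]
    intro k
    by_cases hki : k = i
    · subst hki
      filter_upwards [self_mem_nhdsWithin] with s hs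
      rw [lft_add, h0, zero_add]
      exact mul_pos hs (mul_pos (norm_pos_iff.2 (sub_ne_zero.2 hne)) hφ)
    · have hc : Continuous fun s : ℝ => lft (p k) (p (k + 1)) (x + s • dir φ) := by
        simp only [lft_add]
        fun_prop
      have h1 : Tendsto (fun s : ℝ => lft (p k) (p (k + 1)) (x + s • dir φ)) (𝓝 0)
          (𝓝 (lft (p k) (p (k + 1)) x)) := by
        have := hc.tendsto 0
        simpa using this
      exact (h1.eventually (lt_mem_nhds (hk k hki))).filter_mono nhdsWithin_le_nhds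
  obtain ⟨s, hs, hs'⟩ := (hev.and self_mem_nhdsWithin).exists
  exact ⟨s, hs', hs⟩

theorem t_CH : S_CH := by
  intro hB hH n p hp f hf hC hinv
  obtain ⟨C, hC⟩ := hC
  obtain ⟨hinj, hop, -, -, -, -, -, -, -, -, -, -, hside, -⟩ := hB n p hp
  obtain ⟨hcr, hreg⟩ := hH n p hp
  have hC0 : 0 ≤ C := (abs_nonneg _).trans (hC (0, 0))
  obtain ⟨R, hR⟩ : ∃ R : ℝ, ∀ z ∈ reg p, ‖z‖ ≤ R := by
    have h1 : Bornology.IsBounded (convexHull ℝ (range p)) :=
      isBounded_convexHull.2 (Set.finite_range p).isBounded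
    obtain ⟨R, hR⟩ := h1.exists_norm_le
    refine ⟨R, fun z hz => hR z ?_⟩
    rw [← hreg] at hz
    exact interior_subset hz
  have hval : ∀ θ, ∀ z ∈ reg p, f (z, θ) = Nn p f θ (off θ z) / Dd p θ (off θ z) := by
    intro θ z hz
    have hz0 := eq_ln θ z
    have hmem : (conj (dir θ) * z).re ∈ A p θ (off θ z) := by
      show ln θ (off θ z) (conj (dir θ) * z).re ∈ reg p
      rw [← hz0]
      exact hz
    have hpos : 0 < Dd p θ (off θ z) := by
      rw [Dd_eq' p hop]
      exact ENNReal.toReal_pos ((A_open p hop θ _).measure_pos volume ⟨_, hmem⟩).ne'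
        (A_fin p R hR θ _).ne
    have h1 : Nn p f θ (off θ z) = f (z, θ) * Dd p θ (off θ z) := by
      apply Nn_const
      intro s hs
      have e : ln θ (off θ z) s = z + (s - (conj (dir θ) * z).re) • dir θ := by
        rw [ln_sub θ (off θ z) (conj (dir θ) * z).re s, ← hz0]
      rw [e] at hs ⊢
      rw [← hreg] at hs hz
      exact (hinv.free z θ _ hz hs).symm
    rw [h1, mul_div_assoc, div_self hpos.ne', mul_one]
  have hrefl1 : ∀ i, ∀ t ∈ Ioo (0 : ℝ) 1, ∀ θ, Real.sin (θ - tau p i) < 0 →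
      Nn p f (2 * tau p i - θ) (off (2 * tau p i - θ) (pt p i t)) /
        Dd p (2 * tau p i - θ) (off (2 * tau p i - θ) (pt p i t)) =
      Nn p f θ (off θ (pt p i t)) / Dd p θ (off θ (pt p i t)) := by
    intro i t ht θ hθ
    have hx : pt p i t ∈ side p i := by
      refine ⟨1 - t, t, by linarith [ht.2], ht.1, by ring, ?_⟩
      unfold pt
      rw [smul_sub, sub_smul, one_smul]
      ring
    obtain ⟨-, h0, hk⟩ := hside i _ hx
    have hne : p (i + 1) ≠ p i := by
      intro h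
      have := hinj h
      simp at this
    obtain ⟨r, hr, hr'⟩ := small p i hne _ h0 hk (2 * tau p i - θ) (by
      have e : 2 * tau p i - θ - tau p i = -(θ - tau p i) := by ring
      rw [e, Real.sin_neg]
      linarith)
    obtain ⟨s, hs, hs'⟩ := small p i hne _ h0 hk (θ + π) (by
      have e : θ + π - tau p i = (θ - tau p i) + π := by ring
      rw [e, Real.sin_add_pi]
      linarith)
    rw [dir_neg, smul_neg, ← sub_eq_add_neg] at hs'
    have h1 := hval (2 * tau p i - θ) _ hr'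
    have h2 := hval θ _ hs'
    rw [off_add] at h1
    rw [off_sub] at h2
    rw [← h1, ← h2]
    rw [← hreg] at hr' hs'
    exact (hinv.reflect i _ hx θ s r hs hr hs' hr').symm
  refine ⟨C, fun θ u => Nn p f θ u / Dd p θ u, ?_, ?_, ?_, hval, ?_⟩
  · have h1 := meas_Nn p hop f hf
    have h2 := meas_Nn p hop (fun _ => 1) measurable_const
    exact h1.div h2
  · intro θ u
    rw [abs_div]
    have h1 := Nn_le p hop R hR f C hC θ u
    have h2 : 0 ≤ Dd p θ u := by
      rw [Dd_eq' p hop]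
      exact ENNReal.toReal_nonneg
    rw [abs_of_nonneg h2]
    exact div_le_of_le_mul₀ h2 hC0 h1
  · intro θ u
    have h1 : ∀ s, ln (θ + 2 * π) u s = ln θ u s := fun s => by
      unfold ln
      rw [dir_per]
    have h2 : Nn p f (θ + 2 * π) u = Nn p f θ u := by
      unfold Nn
      simp only [h1, hinv.periodic]
    have h3 : Dd p (θ + 2 * π) u = Dd p θ u := by
      unfold Dd
      simp only [h1]
    simp only [h2, h3]
  · intro i t ht θ hθ
    rcases lt_or_gt_of_ne hθ with h | h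
    · exact hrefl1 i t ht θ h
    · have h1 := hrefl1 i t ht (2 * tau p i - θ) (by
        have e : 2 * tau p i - θ - tau p i = -(θ - tau p i) := by ring
        rw [e, Real.sin_neg]
        linarith)
      have e : 2 * tau p i - (2 * tau p i - θ) = θ := by ring
      rw [e] at h1
      exact h1.symm

end Pool.Agent.N664.LB.CH
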